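import Pool.Agent.Work.MP_89a7db_an.Dia.Fin
import Pool.Agent.FDia.Ext

/-!
Every model of ZFC yields (by forcing) a model of ZFC and Jensen's diamond principle, and under
the diamond principle there is a nonseparable closed subspace of `ℓ_∞` of finite Banach-Mazur
diameter.
-/

universe u

namespace Pool.Agent.Results.MP_89a7db_an.DiamondSubspace

open BMD
open scoped ENNReal Ordinal
open Pool.Agent.SigB (IsZFC)
open Pool.Agent.FDia (Diamond)

/-- The Banach space `E` has a closed nonseparable linear subspace `X` with `D(X) ≤ M`. -/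
def HasNonsepSubspace (E : Type) [NormedAddCommGroup E] [NormedSpace ℝ E] (M : ℝ≥0∞) : Prop :=
  ∃ X : Submodule ℝ E, IsClosed (X : Set E) ∧ ¬ TopologicalSpace.SeparableSpace X ∧ bmDiam X ≤ M

/-- Jensen's diamond principle for `ω₁`: there are sets `A a ⊆ a` (`a < ω₁`) such that for every
`S ⊆ ω₁` the set of all `a < ω₁` with `S ∩ a = A a` is stationary. -/
def DiamondPrinciple : Prop :=
  ∃ A : (ω_ 1 : Ordinal.{0}).ToType → Set (ω_ 1 : Ordinal.{0}).ToType,
    (∀ a, A a ⊆ Set.Iio a) ∧
      ∀ S : Set (ω_ 1 : Ordinal.{0}).ToType, IsStationary {a | S ∩ Set.Iio a = A a}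

/-- **Theorem.** (1) If there is a model `(M, ∈)` of ZFC then there is a model `(N, ∈)` of ZFC in
which Jensen's diamond principle holds. (2) Jensen's diamond principle implies that the real Banach
space `ℓ_∞` has a closed nonseparable linear subspace `X` with `D(X) ≤ 225 ^ 4 < ∞`, that is, any
two Banach spaces isomorphic to `X` have Banach-Mazur distance at most `225 ^ 4`. -/
theorem result :
    (∀ (M : Type u) [Membership M M] [IsZFC M],
      ∃ (N : Type u) (_ : Membership N N), IsZFC N ∧ Diamond N) ∧
    (DiamondPrinciple → HasNonsepSubspace (lp (fun _ : ℕ => ℝ) ∞) (225 ^ 4)) :=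
  ⟨fun M _ _ => Pool.Agent.FDia.exists_diamond M, fun h => Pool.Agent.DIAM.exists_of_diamond h⟩

end Pool.Agent.Results.MP_89a7db_an.DiamondSubspace
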