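import Pool.Agent.Work.MP_89a7db_an.CK

/-!
Banach spaces with local unconditional structure have infinite Banach-Mazur diameter.
-/

namespace Pool.Agent.Results.MP_89a7db_an.LocalUnconditional

open BMD NormedSpace

universe u v

set_option maxSynthPendingDepth 3

/-- **Theorem (ZFC).** Let `X` be an infinite-dimensional real Banach space such that the
canonical embedding of `X` into its bidual, or the canonical embedding of the dual `X*` into its
bidual `X***`, factors through a real Banach lattice `L` (only the lattice norm axioms of `L` are
used, completeness of `L` is not needed).  Then `D(X) = ∞`, whatever the density character of `X`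
is.  No set-theoretic assumption is made. -/
theorem result (X : Type u) [NormedAddCommGroup X] [NormedSpace ℝ X] [CompleteSpace X]
    (hX : ¬ FiniteDimensional ℝ X)
    (L : Type v) [NormedAddCommGroup L] [NormedSpace ℝ L] [Lattice L] [HasSolidNorm L]
    [IsOrderedAddMonoid L] [IsOrderedModule ℝ L]
    (h : (∃ (j : X →L[ℝ] L) (r : L →L[ℝ] StrongDual ℝ (StrongDual ℝ X)),
            ∀ x f, r (j x) f = f x) ∨
         (∃ (j : StrongDual ℝ X →L[ℝ] L)
            (r : L →L[ℝ] StrongDual ℝ (StrongDual ℝ (StrongDual ℝ X))),
            ∀ f φ, r (j f) φ = φ f)) :
    bmDiam X = ⊤ := by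
  rcases h with ⟨j, r, h⟩ | ⟨j, r, h⟩
  · exact diam_top hX j r fun x => by ext f; exact h x f
  · exact diam_top_dual hX j r fun x => by ext f; exact h x f

/-- The special case of spaces of continuous functions: `D(C(K)) = ∞` for every infinite compact
Hausdorff space `K`. -/
theorem continuousFunctions (K : Type u) [TopologicalSpace K] [CompactSpace K] [T2Space K]
    [Infinite K] : bmDiam C(K, ℝ) = ⊤ := ck_diam

end Pool.Agent.Results.MP_89a7db_an.LocalUnconditional
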