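import Pool.Agent.Work.MP_89a7db_an.Dual

/-!
Banach spaces of finite Banach-Mazur diameter, and their duals, contain all finite-dimensional
spaces uniformly complemented.
-/

namespace Pool.Agent.Results.MP_89a7db_an.UniformFactorization

open BMD

universe u

set_option maxSynthPendingDepth 3

/-- **Theorem (ZFC).** Let `X` be an infinite-dimensional real Banach space and `C > D(X)`.
1. If `Z` is a finite-dimensional normed space, or a Banach space such that `X` is isomorphic to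
`Z × W` for some Banach space `W`, then the identity of `Z` factors through `X` with constant
`C`: there are bounded operators `A : Z → X` and `B : X → Z` with `B A = id` and `‖A‖ ‖B‖ ≤ C`.
2. The identity of every finite-dimensional normed space `E` factors in the same way through the
dual space `X*`, with constant `C`.

So `D(X) = ∞` as soon as some sequence of finite-dimensional spaces does not factor uniformly
through `X`, or through `X*`; for example when `X` or `X*` has nontrivial cotype (take the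
`n`-dimensional spaces with the maximum norm). -/
theorem result (X : Type u) [NormedAddCommGroup X] [NormedSpace ℝ X] [CompleteSpace X]
    (hX : ¬ FiniteDimensional ℝ X) (C : ℝ) (hC : bmDiam X < ENNReal.ofReal C) :
    (∀ (Z : Type u) [NormedAddCommGroup Z] [NormedSpace ℝ Z] [CompleteSpace Z],
      (FiniteDimensional ℝ Z ∨
        ∃ (W : Type u) (_ : NormedAddCommGroup W) (_ : NormedSpace ℝ W) (_ : CompleteSpace W),
          Nonempty (X ≃L[ℝ] Z × W)) →
      ∃ (A : Z →L[ℝ] X) (B : X →L[ℝ] Z), (∀ z, B (A z) = z) ∧ ‖A‖ * ‖B‖ ≤ C) ∧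
    (∀ (E : Type u) [NormedAddCommGroup E] [NormedSpace ℝ E] [FiniteDimensional ℝ E],
      ∃ (A : E →L[ℝ] StrongDual ℝ X) (B : StrongDual ℝ X →L[ℝ] E),
        (∀ z, B (A z) = z) ∧ ‖A‖ * ‖B‖ ≤ C) := by
  have hr : RadiusLE X C := radiusLE_of_lt X hC
  have : Nontrivial X := by
    by_contra h
    rw [not_nontrivial_iff_subsingleton] at h
    exact hX inferInstance
  constructor
  · intro Z _ _ _ hZ
    obtain ⟨A, B, h1, h2, h3⟩ : ∃ (A : Z →L[ℝ] X) (B : X →L[ℝ] Z),
        (∀ z, B (A z) = z) ∧ ‖A‖ ≤ 1 ∧ ‖B‖ ≤ C := by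
      rcases hZ with hfin | ⟨W, _, _, _, ⟨e⟩⟩
      · exact factor_finite_same hX hr
      · exact factor_prod hr e
    refine ⟨A, B, h1, ?_⟩
    calc ‖A‖ * ‖B‖ ≤ 1 * ‖B‖ := mul_le_mul_of_nonneg_right h2 (norm_nonneg _)
      _ ≤ C := by rw [one_mul]; exact h3
  · intro E _ _ _
    obtain ⟨A, B, h1, h2, h3⟩ := factor_finite_dual hX hr (E := E)
    refine ⟨A, B, h1, ?_⟩
    calc ‖A‖ * ‖B‖ ≤ ‖A‖ * 1 := mul_le_mul_of_nonneg_left h3 (norm_nonneg _)
      _ ≤ C := by rw [mul_one]; exact h2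

/-- If `X` is infinite-dimensional and `D(X) < C` then `X` and `X*` contain the spaces `ℝ ^ n`
with the maximum norm with constant `C`, for every `n`. -/
theorem max_norm_copies (X : Type) [NormedAddCommGroup X] [NormedSpace ℝ X] [CompleteSpace X]
    (hX : ¬ FiniteDimensional ℝ X) (C : ℝ) (hC : bmDiam X < ENNReal.ofReal C) (n : ℕ) :
    (∃ A : (Fin n → ℝ) →L[ℝ] X, ∀ v, ‖v‖ ≤ ‖A v‖ ∧ ‖A v‖ ≤ C * ‖v‖) ∧
    (∃ A : (Fin n → ℝ) →L[ℝ] StrongDual ℝ X, ∀ v, ‖v‖ ≤ ‖A v‖ ∧ ‖A v‖ ≤ C * ‖v‖) := by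
  have hr : RadiusLE X C := radiusLE_of_lt X hC
  constructor
  · obtain ⟨A, B, h1, h2, h3⟩ := factor_finite_same hX hr (E := Fin n → ℝ)
    have hC0 : 0 ≤ C := (norm_nonneg B).trans h3
    refine ⟨C • A, fun v => ?_⟩
    have e : ‖(C • A) v‖ = C * ‖A v‖ := by
      rw [_root_.smul_apply, norm_smul, Real.norm_eq_abs, abs_of_nonneg hC0]
    rw [e]
    constructor
    · calc ‖v‖ = ‖B (A v)‖ := by rw [h1]
        _ ≤ ‖B‖ * ‖A v‖ := B.le_opNorm _
        _ ≤ C * ‖A v‖ := mul_le_mul_of_nonneg_right h3 (norm_nonneg _)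
    · refine mul_le_mul_of_nonneg_left ?_ hC0
      calc ‖A v‖ ≤ ‖A‖ * ‖v‖ := A.le_opNorm _
        _ ≤ 1 * ‖v‖ := mul_le_mul_of_nonneg_right h2 (norm_nonneg _)
        _ = ‖v‖ := one_mul _
  · obtain ⟨A, B, h1, h2, h3⟩ := factor_finite_dual hX hr (E := Fin n → ℝ)
    refine ⟨A, fun v => ⟨?_, ?_⟩⟩
    · calc ‖v‖ = ‖B (A v)‖ := by rw [h1]
        _ ≤ ‖B‖ * ‖A v‖ := B.le_opNorm _
        _ ≤ 1 * ‖A v‖ := mul_le_mul_of_nonneg_right h3 (norm_nonneg _)
        _ = ‖A v‖ := one_mul _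
    · exact (A.le_opNorm _).trans (mul_le_mul_of_nonneg_right h2 (norm_nonneg _))

end Pool.Agent.Results.MP_89a7db_an.UniformFactorization
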